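import Pool.Agent.Lib_helper53.BS.Defs

/-! Block HER of the project BohrSet (MP_49610d_nt): the theorem of Herglotz for the correlations
of a bounded function under an invariant mean. -/

set_option autoImplicit false

namespace Pool.Agent.BS

open Finset Filter MeasureTheory Topology
open scoped Classical

/-- the sum of the values of a character of `ℤ/M` -/
theorem her_sum_cos (M : ℕ) (hM : 0 < M) (k : ℤ) (hk : ¬ (M : ℤ) ∣ k) :
    ∑ r ∈ range M, Real.cos (k * (2 * Real.pi * r / M)) = 0 := by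
  set ζ : ℂ := Complex.exp (2 * Real.pi * Complex.I * k / M) with hζ
  have hM' : (M : ℂ) ≠ 0 := by exact_mod_cast hM.ne'
  have h1 : ζ ^ M = 1 := by
    rw [hζ, ← Complex.exp_nat_mul, Complex.exp_eq_one_iff]
    exact ⟨k, by field_simp⟩
  have h2 : ζ ≠ 1 := by
    intro h
    rw [hζ, Complex.exp_eq_one_iff] at h
    obtain ⟨n, hn⟩ := h
    apply hk
    refine ⟨n, ?_⟩
    have h3 : (k : ℂ) = M * n := by
      have h4 : (2 * Real.pi * Complex.I : ℂ) ≠ 0 := Complex.two_pi_I_ne_zero
      have h5 : (2 * Real.pi * Complex.I : ℂ) * (k - M * n) = 0 := by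
        have h6 : (2 * Real.pi * Complex.I : ℂ) * k = M * (n * (2 * Real.pi * Complex.I)) := by
          rw [← hn]; field_simp
        linear_combination h6
      have h7 := (mul_eq_zero.1 h5).resolve_left h4
      linear_combination h7
    exact_mod_cast h3
  have h3 : ∑ r ∈ range M, ζ ^ r = 0 := by
    rw [geom_sum_eq h2, h1, sub_self, zero_div]
  have h4 := congrArg Complex.re h3
  rw [Complex.re_sum, Complex.zero_re] at h4
  rw [← h4]
  refine Finset.sum_congr rfl fun r _ => ?_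
  rw [hζ, ← Complex.exp_nat_mul,
    show (r : ℂ) * (2 * Real.pi * Complex.I * k / M)
      = ((k * (2 * Real.pi * r / M) : ℝ) : ℂ) * Complex.I by push_cast; ring,
    Complex.exp_ofReal_mul_I_re]

/-- positivity -/
theorem her_pos {m : (ℕ → ℝ) → ℝ} (hm : IsMean m) (f : ℕ → ℝ) (hf : Bdd f) (n : ℕ)
    (c : ℕ → ℝ) :
    0 ≤ ∑ s ∈ range n, ∑ s' ∈ range n, c s * c s' *
      m (fun a => f a * f (a + ((s : ℤ) - s').natAbs)) := by
  have hb : ∀ s, Bdd (fun a => f (a + s)) := fun s => hf.shift s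
  have h1 : ∀ s s' : ℕ, m (fun a => f (a + s) * f (a + s')) =
      m (fun a => f a * f (a + ((s : ℤ) - s').natAbs)) := by
    intro s s'
    rcases le_total s s' with h | h
    · obtain ⟨d, rfl⟩ := Nat.exists_eq_add_of_le h
      have h2 : ((s : ℤ) - ((s + d : ℕ) : ℤ)).natAbs = d := by push_cast; simp
      rw [h2]
      have h3 := hm.shift (fun a => f a * f (a + d)) (hf.mul (hb d)) s
      rw [← h3]
      simp only [add_assoc]
    · obtain ⟨d, rfl⟩ := Nat.exists_eq_add_of_le h
      have h2 : (((s' + d : ℕ) : ℤ) - (s' : ℤ)).natAbs = d := by push_cast; simp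
      rw [h2]
      have h3 := hm.shift (fun a => f a * f (a + d)) (hf.mul (hb d)) s'
      rw [← h3]
      congr 1
      funext a
      rw [mul_comm, add_assoc]
  have h2 : 0 ≤ m (fun a => (∑ s ∈ range n, c s * f (a + s)) ^ 2) := by
    refine hm.nonneg _ ?_ (fun a => sq_nonneg _)
    exact (Bdd.sum _ fun s _ => (hb s).smul (c s)).pow 2
  have h3 : (fun a => (∑ s ∈ range n, c s * f (a + s)) ^ 2) =
      fun a => ∑ s ∈ range n, ∑ s' ∈ range n, (c s * c s') * (f (a + s) * f (a + s')) := by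
    funext a
    rw [sq, Finset.sum_mul_sum]
    refine Finset.sum_congr rfl fun s _ => Finset.sum_congr rfl fun s' _ => ?_
    ring
  rw [h3, hm.sum _ (fun s _ => Bdd.sum _ fun s' _ => ((hb s).mul (hb s')).smul _)] at h2
  refine h2.trans_eq (Finset.sum_congr rfl fun s _ => ?_)
  rw [hm.sum _ (fun s' _ => ((hb s).mul (hb s')).smul _)]
  refine Finset.sum_congr rfl fun s' _ => ?_
  rw [hm.smul _ _ ((hb s).mul (hb s')), h1]

/-- the weights -/
noncomputable def her_w (γ : ℕ → ℝ) (n M r : ℕ) : ℝ :=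
  (1 / (n * M : ℝ)) * ∑ s ∈ range n, ∑ s' ∈ range n,
    Real.cos (((s : ℤ) - s' : ℤ) * (2 * Real.pi * r / M)) * γ ((s : ℤ) - s').natAbs

theorem her_w_nonneg (γ : ℕ → ℝ) (n M r : ℕ)
    (h : ∀ c : ℕ → ℝ, 0 ≤ ∑ s ∈ range n, ∑ s' ∈ range n, c s * c s' * γ ((s : ℤ) - s').natAbs) :
    0 ≤ her_w γ n M r := by
  unfold her_w
  refine mul_nonneg (by positivity) ?_
  have h1 := h (fun s => Real.cos (s * (2 * Real.pi * r / M)))
  have h2 := h (fun s => Real.sin (s * (2 * Real.pi * r / M)))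
  have h3 := add_nonneg h1 h2
  refine h3.trans_eq ?_
  rw [← Finset.sum_add_distrib]
  refine Finset.sum_congr rfl fun s _ => ?_
  rw [← Finset.sum_add_distrib]
  refine Finset.sum_congr rfl fun s' _ => ?_
  rw [← add_mul]
  congr 1
  push_cast
  rw [sub_mul, Real.cos_sub]

theorem her_count (n t : ℕ) (ht : t ≤ n) (g : ℝ) :
    ∑ s ∈ range n, ∑ s' ∈ range n, (if ((s : ℤ) - s') = t then g else 0) = (n - t : ℝ) * g := by
  have h1 : ∀ s' ∈ range n, ∑ s ∈ range n, (if ((s : ℤ) - s') = t then g else 0)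
      = if s' ∈ range (n - t) then g else 0 := by
    intro s' _
    have h2 : ∀ s ∈ range n, (if ((s : ℤ) - s') = t then g else 0)
        = if s = s' + t then g else 0 := by
      intro s _
      by_cases h : s = s' + t
      · rw [if_pos h, if_pos (by rw [h]; push_cast; ring)]
      · rw [if_neg h, if_neg (by intro h'; apply h; omega)]
    rw [Finset.sum_congr rfl h2, Finset.sum_ite_eq']
    by_cases h : s' + t < n
    · rw [if_pos (mem_range.2 h), if_pos (mem_range.2 (by omega))]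
    · rw [if_neg (by rw [mem_range]; exact h), if_neg (by rw [mem_range]; omega)]
  rw [Finset.sum_comm, Finset.sum_congr rfl h1, ← Finset.sum_filter, Finset.sum_const,
    Finset.filter_mem_eq_inter, Finset.inter_eq_right.2 (Finset.range_subset_range.2 (by omega)),
    card_range, nsmul_eq_mul, Nat.cast_sub ht]

theorem her_sum (γ : ℕ → ℝ) (n M t : ℕ) (hn : 0 < n) (hM : M = 3 * n) (ht : t ≤ n) :
    ∑ r ∈ range M, her_w γ n M r * Real.cos (t * (2 * Real.pi * r / M))
      = (1 - t / n : ℝ) * γ t := by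
  have hM0 : 0 < M := by omega
  have hMr : (M : ℝ) ≠ 0 := by exact_mod_cast hM0.ne'
  have hnr : (n : ℝ) ≠ 0 := by exact_mod_cast hn.ne'
  -- the sum over `r`
  have key : ∀ k : ℤ, k.natAbs < M → ∑ r ∈ range M, Real.cos (k * (2 * Real.pi * r / M))
      = if k = 0 then (M : ℝ) else 0 := by
    intro k hk
    by_cases h : k = 0
    · rw [if_pos h, h]
      simp
    · rw [if_neg h]
      refine her_sum_cos M hM0 k ?_
      intro hd
      have h2 := Int.natAbs_dvd_natAbs.2 hd
      have h3 := Nat.le_of_dvd (by omega) h2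
      omega
  have h1 : ∀ s ∈ range n, ∀ s' ∈ range n, ∑ r ∈ range M,
      Real.cos (((s : ℤ) - s' : ℤ) * (2 * Real.pi * r / M)) *
        Real.cos (t * (2 * Real.pi * r / M)) =
      (M / 2 : ℝ) * ((if ((s : ℤ) - s') = t then 1 else 0) +
        (if ((s' : ℤ) - s) = t then 1 else 0)) := by
    intro s hs s' hs'
    rw [mem_range] at hs hs'
    have h2 := key ((s : ℤ) - s' - t) (by omega)
    have h3 := key ((s : ℤ) - s' + t) (by omega)
    have h4 : ∀ r ∈ range M, Real.cos (((s : ℤ) - s' : ℤ) * (2 * Real.pi * r / M)) *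
        Real.cos (t * (2 * Real.pi * r / M)) =
        (1 / 2) * (Real.cos (((s : ℤ) - s' - t : ℤ) * (2 * Real.pi * r / M)) +
          Real.cos (((s : ℤ) - s' + t : ℤ) * (2 * Real.pi * r / M))) := by
      intro r _
      have e1 : (((s : ℤ) - s' - t : ℤ) : ℝ) * (2 * Real.pi * r / M) =
          (((s : ℤ) - s' : ℤ) : ℝ) * (2 * Real.pi * r / M) - t * (2 * Real.pi * r / M) := by
        push_cast; ring
      have e2 : (((s : ℤ) - s' + t : ℤ) : ℝ) * (2 * Real.pi * r / M) =
          (((s : ℤ) - s' : ℤ) : ℝ) * (2 * Real.pi * r / M) + t * (2 * Real.pi * r / M) := by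
        push_cast; ring
      rw [e1, e2, Real.cos_sub, Real.cos_add]
      ring
    rw [Finset.sum_congr rfl h4, ← Finset.mul_sum, Finset.sum_add_distrib, h2, h3]
    have e3 : ((s : ℤ) - s' - t = 0) ↔ ((s : ℤ) - s' = t) := by omega
    have e4 : ((s : ℤ) - s' + t = 0) ↔ ((s' : ℤ) - s = t) := by omega
    simp only [e3, e4]
    split_ifs <;> ring
  have h5 : ∑ r ∈ range M, her_w γ n M r * Real.cos (t * (2 * Real.pi * r / M)) =
      (1 / (n * M : ℝ)) * ∑ s ∈ range n, ∑ s' ∈ range n, γ ((s : ℤ) - s').natAbs *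
        ∑ r ∈ range M, Real.cos (((s : ℤ) - s' : ℤ) * (2 * Real.pi * r / M)) *
          Real.cos (t * (2 * Real.pi * r / M)) := by
    unfold her_w
    rw [Finset.mul_sum]
    simp only [Finset.mul_sum, Finset.sum_mul]
    rw [Finset.sum_comm]
    refine Finset.sum_congr rfl fun s _ => ?_
    rw [Finset.sum_comm]
    refine Finset.sum_congr rfl fun s' _ => ?_
    refine Finset.sum_congr rfl fun r _ => ?_
    ring
  rw [h5]
  have h6 : ∑ s ∈ range n, ∑ s' ∈ range n, γ ((s : ℤ) - s').natAbs *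
        ∑ r ∈ range M, Real.cos (((s : ℤ) - s' : ℤ) * (2 * Real.pi * r / M)) *
          Real.cos (t * (2 * Real.pi * r / M)) =
      (M / 2 : ℝ) * (∑ s ∈ range n, ∑ s' ∈ range n, (if ((s : ℤ) - s') = t then γ t else 0) +
        ∑ s ∈ range n, ∑ s' ∈ range n, (if ((s' : ℤ) - s) = t then γ t else 0)) := by
    rw [← Finset.sum_add_distrib, Finset.mul_sum]
    refine Finset.sum_congr rfl fun s hs => ?_
    rw [← Finset.sum_add_distrib, Finset.mul_sum]
    refine Finset.sum_congr rfl fun s' hs' => ?_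
    rw [h1 s hs s' hs']
    have e5 : ((s : ℤ) - s' = t) → ((s : ℤ) - s').natAbs = t := by omega
    have e6 : ((s' : ℤ) - s = t) → ((s : ℤ) - s').natAbs = t := by omega
    by_cases c1 : (s : ℤ) - s' = t
    · by_cases c2 : (s' : ℤ) - s = t
      · rw [if_pos c1, if_pos c2, if_pos c1, if_pos c2, e5 c1]; ring
      · rw [if_pos c1, if_neg c2, if_pos c1, if_neg c2, e5 c1]; ring
    · by_cases c2 : (s' : ℤ) - s = t
      · rw [if_neg c1, if_pos c2, if_neg c1, if_pos c2, e6 c2]; ring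
      · rw [if_neg c1, if_neg c2, if_neg c1, if_neg c2]; ring
  have h7 : ∑ s ∈ range n, ∑ s' ∈ range n, (if ((s' : ℤ) - s) = t then γ t else 0) =
      (n - t : ℝ) * γ t := by
    rw [Finset.sum_comm]
    exact her_count n t ht _
  rw [h6, h7, her_count n t ht]
  field_simp
  ring

/-- the points of the approximating measures -/
noncomputable def her_z (M r : ℕ) : Circle := Circle.exp (2 * Real.pi * r / M)

theorem her_z_pow (M r t : ℕ) : (((her_z M r : Circle) : ℂ) ^ t).re =
    Real.cos (t * (2 * Real.pi * r / M)) := by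
  unfold her_z
  rw [Circle.coe_exp, ← Complex.exp_nat_mul,
    show (t : ℂ) * (((2 * Real.pi * r / M : ℝ) : ℂ) * Complex.I) =
      ((t * (2 * Real.pi * r / M) : ℝ) : ℂ) * Complex.I by push_cast; ring,
    Complex.exp_ofReal_mul_I_re]

/-- the approximating measures -/
noncomputable def her_mu (γ : ℕ → ℝ) (n : ℕ) : Measure Circle :=
  ∑ r ∈ range (3 * n), ENNReal.ofReal (her_w γ n (3 * n) r) • Measure.dirac (her_z (3 * n) r)

instance her_fin (γ : ℕ → ℝ) (n : ℕ) : IsFiniteMeasure (her_mu γ n) := by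
  constructor
  unfold her_mu
  rw [Measure.finsetSum_apply]
  refine ENNReal.sum_lt_top.2 fun r _ => ?_
  rw [Measure.smul_apply, smul_eq_mul]
  exact ENNReal.mul_lt_top ENNReal.ofReal_lt_top (measure_lt_top _ _)

theorem her_int (γ : ℕ → ℝ) (n : ℕ)
    (h : ∀ c : ℕ → ℝ, 0 ≤ ∑ s ∈ range n, ∑ s' ∈ range n, c s * c s' * γ ((s : ℤ) - s').natAbs)
    (g : Circle → ℝ) (hg : Continuous g) :
    ∫ z, g z ∂(her_mu γ n) = ∑ r ∈ range (3 * n), her_w γ n (3 * n) r * g (her_z (3 * n) r) := by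
  unfold her_mu
  rw [integral_finsetSum_measure]
  · refine Finset.sum_congr rfl fun r _ => ?_
    rw [integral_smul_measure, integral_dirac, ENNReal.toReal_ofReal (her_w_nonneg γ n _ r h),
      smul_eq_mul]
  · intro r _
    refine Integrable.smul_measure ?_ ENNReal.ofReal_ne_top
    exact hg.integrable_of_hasCompactSupport (HasCompactSupport.of_compactSpace _)

/-- **HER** -/
theorem herglotz_pr {m : (ℕ → ℝ) → ℝ} (hm : IsMean m) (f : ℕ → ℝ) (hf : Bdd f) :
    ∃ μ : Measure Circle, IsFiniteMeasure μ ∧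
      ∀ t : ℕ, m (fun a => f a * f (a + t)) = ∫ z : Circle, ((z : ℂ) ^ t).re ∂μ := by
  set γ : ℕ → ℝ := fun t => m (fun a => f a * f (a + t)) with hγ
  have hpos : ∀ (n : ℕ) (c : ℕ → ℝ), 0 ≤ ∑ s ∈ range n, ∑ s' ∈ range n,
      c s * c s' * γ ((s : ℤ) - s').natAbs := fun n c => her_pos hm f hf n c
  have hcont : ∀ t : ℕ, Continuous (fun z : Circle => ((z : ℂ) ^ t).re) := fun t =>
    Complex.continuous_re.comp (continuous_subtype_val.pow t)
  have hval : ∀ (n t : ℕ), 0 < n → t ≤ n →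
      ∫ z, ((z : ℂ) ^ t).re ∂(her_mu γ n) = (1 - t / n : ℝ) * γ t := by
    intro n t hn ht
    rw [her_int γ n (hpos n) _ (hcont t), ← her_sum γ n (3 * n) t hn rfl ht]
    refine Finset.sum_congr rfl fun r _ => ?_
    rw [her_z_pow]
  let μs : ℕ → FiniteMeasure Circle := fun n => ⟨her_mu γ n, her_fin γ n⟩
  set C : NNReal := (γ 0).toNNReal with hC
  have hmass : ∀ n, 0 < n → (μs n).mass ≤ C := by
    intro n hn
    have h1 := hval n 0 hn (Nat.zero_le _)
    simp only [pow_zero, Complex.one_re, integral_const, smul_eq_mul, mul_one, Nat.cast_zero,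
      zero_div, sub_zero, one_mul] at h1
    rw [hC, ← h1]
    apply le_of_eq
    rw [FiniteMeasure.mass, FiniteMeasure.mk_apply, measureReal_def]
    exact (Real.toNNReal_coe).symm
  have hK := isCompact_setOfPred_finiteMeasure_le_of_compactSpace Circle C
  rw [isCompact_iff_ultrafilter_le_nhds] at hK
  obtain ⟨μ, -, hμ⟩ := hK ((hyperfilter ℕ).map μs) (by
    rw [le_principal_iff]
    have h1 : ∀ᶠ n in (hyperfilter ℕ : Filter ℕ), 0 < n :=
      (Nat.hyperfilter_le_atTop) (eventually_gt_atTop 0)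
    exact h1.mono fun n hn => hmass n hn)
  have hμ' : Tendsto μs (hyperfilter ℕ) (𝓝 μ) := hμ
  refine ⟨μ, inferInstance, fun t => ?_⟩
  have h1 := (FiniteMeasure.tendsto_iff_forall_integral_tendsto.1 hμ')
    (BoundedContinuousFunction.mkOfCompact ⟨_, hcont t⟩)
  have h2 : Tendsto (fun n => ∫ z, ((z : ℂ) ^ t).re ∂(her_mu γ n)) (hyperfilter ℕ)
      (𝓝 (∫ z, ((z : ℂ) ^ t).re ∂(μ : Measure Circle))) := h1
  have h3 : Tendsto (fun n : ℕ => (1 - t / n : ℝ) * γ t) (hyperfilter ℕ) (𝓝 (γ t)) := by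
    have h4 : Tendsto (fun n : ℕ => (1 - t / n : ℝ) * γ t) atTop (𝓝 ((1 - 0) * γ t)) :=
      (tendsto_const_nhds.sub (tendsto_const_div_atTop_nhds_zero_nat (t : ℝ))).mul_const _
    rw [sub_zero, one_mul] at h4
    exact h4.mono_left Nat.hyperfilter_le_atTop
  refine tendsto_nhds_unique h3 (h2.congr' ?_)
  have h5 : ∀ᶠ n in (hyperfilter ℕ : Filter ℕ), t < n :=
    (Nat.hyperfilter_le_atTop) (eventually_gt_atTop t)
  exact h5.mono fun n hn => hval n t (by omega) hn.le

end Pool.Agent.BS
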